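import Pool.Agent.Helper76.TX.StU

/-!
# Project TU, module XD: symbols modulo 2 killed by `T_3^i T_5^j`
-/

set_option autoImplicit false

namespace Pool.Agent.Helper34.TX

open Pool.Agent.Helper76.TX Pool.Agent.Helper14.CV Pool.Agent.Helper28.WK
  Pool.Agent.Helper78.TW

section

variable {R S : Type} [AddCommGroup R] [AddCommGroup S]

private lemma Tl_map (f : R →+ S) (l : ℕ) (m : ℤ) (G : ℤ → ℤ → R) :
    Tl l m (fun p q => f (G p q)) = fun p q => f (Tl l m G p q) := by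
  funext p q
  simp only [Tl, map_add, map_sum]

private lemma Tl_iter_map (f : R →+ S) (l : ℕ) (m : ℤ) (i : ℕ) (G : ℤ → ℤ → R) :
    (Tl l m)^[i] (fun p q => f (G p q)) = fun p q => f ((Tl l m)^[i] G p q) := by
  induction i generalizing G with
  | zero => rfl
  | succ i ih => rw [Function.iterate_succ_apply, Function.iterate_succ_apply, Tl_map, ih]

private lemma ev_map (f : R →+ S) (m : ℤ) (G : ℤ → ℤ → R) (i j : ℕ) :
    ev m (fun p q => f (G p q)) i j = f (ev m G i j) := by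
  simp only [ev, Tl_iter_map, map_sub]

private lemma TW_cons (l : ℕ) (L : List ℕ) (G : ℤ → ℤ → R) :
    TW (l :: L) G = Tl l 1 (TW L G) := rfl

private lemma TW_map (f : R →+ S) (L : List ℕ) (G : ℤ → ℤ → R) :
    TW L (fun p q => f (G p q)) = fun p q => f (TW L G p q) := by
  induction L with
  | nil => rfl
  | cons l L ih => rw [TW_cons, TW_cons, ih, Tl_map]

private lemma TW_zsmul (s : ℤ) (L : List ℕ) (G : ℤ → ℤ → R) :
    TW L (s • G) = s • TW L G := by
  induction L with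
  | nil => rfl
  | cons l L ih => rw [TW_cons, TW_cons, ih, Tl_smul]

private lemma TW_congr {G H : ℤ → ℤ → R} (h : EqC G H) (L : List ℕ) :
    (∀ l ∈ L, 0 < l) → EqC (TW L G) (TW L H) := by
  induction L with
  | nil => exact fun _ => h
  | cons l L ih =>
    intro hL
    exact (ih fun x hx => hL x (List.mem_cons_of_mem _ hx)).Tl (hL l List.mem_cons_self) 1

private lemma EqC_map (f : R →+ S) {G H : ℤ → ℤ → R} (h : EqC G H) :
    EqC (fun p q => f (G p q)) (fun p q => f (H p q)) := by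
  obtain ⟨c, hc⟩ := h
  exact ⟨f c, fun p q hpq => by beta_reduce; rw [hc p q hpq, map_add]⟩

private lemma Sym_map (f : R →+ S) {r s : ℕ} {G : ℤ → ℤ → R} (h : Sym r s G) :
    Sym r s (fun p q => f (G p q)) :=
  ⟨fun k p q hk hpq => by beta_reduce; rw [h.1 k p q hk hpq],
    fun a b c d hd hb hc => EqC_map f (h.2 a b c d hd hb hc)⟩

end

private lemma aux (hC : Crm) (hX : Xa) (n M : ℕ) (g : ℤ → ℤ → ZMod (2 ^ M)) (hn : 5 ≤ n)
    (hg : Sym 0 n g) (hev : ∀ i j : ℕ, ev 1 g i j = 0) (L : List ℕ)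
    (hL : ∀ l ∈ L, l.Prime ∧ l ≠ 2) : TW L g 1 0 = TW L g 0 1 := by
  obtain ⟨d, G, hd, hG, hevG, hE⟩ := hC n M g hn hg hev
  have h1 := hX n (fun p q => (Int.castAddHom ℂ) (G p q)) (by omega) (Sym_map _ hG)
    (fun i j => by rw [ev_map, hevG i j, map_zero]) L hL
  rw [TW_map] at h1
  have h2 : TW L G 1 0 = TW L G 0 1 := by
    have h3 : ((TW L G 1 0 : ℤ) : ℂ) = ((TW L G 0 1 : ℤ) : ℂ) := h1
    exact_mod_cast h3
  have h4 : TW L (fun p q => (Int.castAddHom (ZMod (2 ^ M))) (G p q)) 1 0 =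
      TW L (fun p q => (Int.castAddHom (ZMod (2 ^ M))) (G p q)) 0 1 := by
    rw [TW_map]
    beta_reduce
    rw [h2]
  have h5 : EqC (fun p q => (Int.castAddHom (ZMod (2 ^ M))) (G p q)) (d • g) := hE
  have h6 := (TW_congr h5 L fun l hl => (hL l hl).1.pos).diff
    (p := 1) (q := 0) (p' := 0) (q' := 1) (Or.inl one_ne_zero) (Or.inr one_ne_zero)
  rw [h4, sub_self, TW_zsmul] at h6
  simp only [Pi.smul_apply] at h6
  rw [← smul_sub, zsmul_eq_mul] at h6
  have hu : IsUnit ((d : ZMod (2 ^ M))) := by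
    rw [ZMod.coe_int_isUnit_iff_isCoprime]
    push_cast
    refine IsCoprime.pow_left ?_
    obtain ⟨e, he⟩ := hd
    exact ⟨-e, 1, by rw [he]; ring⟩
  exact sub_eq_zero.1 ((hu.mul_right_eq_zero).1 h6.symm)

/-- XD. -/
theorem hXd : StXd := fun hC hX n g hn hg hev L hL => aux hC hX n 1 g hn hg hev L hL

end Pool.Agent.Helper34.TX
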